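import Pool.Agent.MP_ba1c1e_lc.Defs

/-!
The combinatorial form of a continuous open surjection
from the positive sets of a filter onto the filter.
-/

namespace Pool.Agent.MP_ba1c1e_lc

open Set Filter Topology

/-- Combinatorial form of a continuous open surjection `P → Q`
between subspaces of the Cantor space. -/
structure OpenLike (P Q : Set (ℕ → Bool)) (A : (ℕ → Bool) → (ℕ → Bool)) : Prop where
  maps : ∀ y ∈ P, A y ∈ Q
  cont : ∀ y ∈ P, ∀ N : ℕ, ∃ l : ℕ, ∀ z ∈ P, (∀ k < l, z k = y k) → ∀ k < N, A z k = A y k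
  opn : ∀ y ∈ P, ∀ l : ℕ, ∃ m : ℕ, ∀ q ∈ Q, (∀ k < m, q k = A y k) →
    ∃ z ∈ P, (∀ k < l, z k = y k) ∧ A z = q
  surj : ∀ q ∈ Q, ∃ y ∈ P, A y = q

lemma exists_len {U : Set (ℕ → Bool)} (hU : IsOpen U) {x : ℕ → Bool} (hx : x ∈ U) :
    ∃ l : ℕ, ∀ y : ℕ → Bool, (∀ k < l, y k = x k) → y ∈ U := by
  rw [isOpen_pi_iff] at hU
  obtain ⟨I, u, hu, hsub⟩ := hU x hx
  refine ⟨I.sup id + 1, fun y hy => hsub ?_⟩
  intro i hi
  have : i < I.sup id + 1 := Nat.lt_succ_of_le (Finset.le_sup (f := id) hi)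
  rw [hy i this]
  exact (hu i hi).2

lemma isOpen_cyl (x : ℕ → Bool) (l : ℕ) : IsOpen {y : ℕ → Bool | ∀ k < l, y k = x k} := by
  have : {y : ℕ → Bool | ∀ k < l, y k = x k} =
      ⋂ k ∈ Finset.range l, (fun y : ℕ → Bool => y k) ⁻¹' {x k} := by
    ext y; simp
  rw [this]
  refine isOpen_biInter_finset fun k _ => ?_
  exact (isOpen_discrete _).preimage (continuous_apply k)

/-- A continuous open surjection gives an `OpenLike` map. -/
lemma openLike_of_map {P Q : Set (ℕ → Bool)} (a : P → Q) (hc : Continuous a)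
    (ho : IsOpenMap a) (hs : Function.Surjective a) :
    ∃ A : (ℕ → Bool) → (ℕ → Bool), OpenLike P Q A := by
  classical
  refine ⟨fun y => if h : y ∈ P then (a ⟨y, h⟩ : ℕ → Bool) else fun _ => false, ?_, ?_, ?_, ?_⟩
  · intro y hy
    simp only [hy, dif_pos]
    exact (a ⟨y, hy⟩).2
  · intro y hy N
    simp only [hy, dif_pos]
    have h1 : IsOpen ((fun z : P => (a z : ℕ → Bool)) ⁻¹'
        {w : ℕ → Bool | ∀ k < N, w k = (a ⟨y, hy⟩ : ℕ → Bool) k}) :=
      (isOpen_cyl _ N).preimage (continuous_subtype_val.comp hc)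
    obtain ⟨V, hV, hVe⟩ := isOpen_induced_iff.1 h1
    have hyV : y ∈ V := by
      have : (⟨y, hy⟩ : P) ∈ Subtype.val ⁻¹' V := by
        rw [hVe]; simp
      exact this
    obtain ⟨l, hl⟩ := exists_len hV hyV
    refine ⟨l, fun z hz hzy k hk => ?_⟩
    have : (⟨z, hz⟩ : P) ∈ Subtype.val ⁻¹' V := hl z hzy
    rw [hVe] at this
    simp only [hz, dif_pos]
    exact this k hk
  · intro y hy l
    simp only [hy, dif_pos]
    have h1 : IsOpen ((Subtype.val : P → ℕ → Bool) ⁻¹' {w : ℕ → Bool | ∀ k < l, w k = y k}) :=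
      (isOpen_cyl _ l).preimage continuous_subtype_val
    have h2 := ho _ h1
    obtain ⟨V, hV, hVe⟩ := isOpen_induced_iff.1 h2
    have hyV : (a ⟨y, hy⟩ : ℕ → Bool) ∈ V := by
      have : a ⟨y, hy⟩ ∈ Subtype.val ⁻¹' V := by
        rw [hVe]
        exact ⟨⟨y, hy⟩, by simp, rfl⟩
      exact this
    obtain ⟨m, hm⟩ := exists_len hV hyV
    refine ⟨m, fun q hq hqy => ?_⟩
    have : (⟨q, hq⟩ : Q) ∈ Subtype.val ⁻¹' V := hm q hqy
    rw [hVe] at this
    obtain ⟨z, hz, hzq⟩ := this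
    refine ⟨z.1, z.2, hz, ?_⟩
    simp only [z.2, dif_pos]
    rw [hzq]
  · intro q hq
    obtain ⟨y, hy⟩ := hs ⟨q, hq⟩
    refine ⟨y.1, y.2, ?_⟩
    simp only [y.2, dif_pos]
    rw [hy]

lemma positiveSet_nonempty (F : Filter ℕ) [F.NeBot] : (positiveSet F).Nonempty := by
  refine ⟨fun _ => true, fun S hS => ?_⟩
  simpa using Filter.nonempty_of_mem hS

/-- A homeomorphism `F × F⁺ ≃ F⁺` gives an `OpenLike` map `F⁺ → F`. -/
lemma openLike_of_homeo (F : Filter ℕ) [F.NeBot]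
    (h : (filterSet F × positiveSet F) ≃ₜ positiveSet F) :
    ∃ A : (ℕ → Bool) → (ℕ → Bool), OpenLike (positiveSet F) (filterSet F) A := by
  refine openLike_of_map (fun z => (h.symm z).1) (continuous_fst.comp h.symm.continuous)
    (isOpenMap_fst.comp h.symm.isOpenMap) ?_
  intro q
  obtain ⟨p, hp⟩ := positiveSet_nonempty F
  exact ⟨h (q, ⟨p, hp⟩), by simp⟩

/-- `ext s l` : the characteristic function of `s ∩ [0,l) ∪ [l,∞)`. -/
def cofExt (s : Finset ℕ) (l : ℕ) : ℕ → Bool :=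
  fun k => if k < l then decide (k ∈ s) else true

/-- `tr x l` : the finite set coded by `x` restricted to `[0,l)`. -/
def tr (x : ℕ → Bool) (l : ℕ) : Finset ℕ := (Finset.range l).filter (fun k => x k = true)

lemma cofExt_of_lt {s : Finset ℕ} {l k : ℕ} (h : k < l) : cofExt s l k = decide (k ∈ s) := by
  simp [cofExt, h]

lemma cofExt_of_ge {s : Finset ℕ} {l k : ℕ} (h : l ≤ k) : cofExt s l k = true := by
  simp [cofExt, not_lt.2 h]

lemma cofExt_tr {x : ℕ → Bool} {l k : ℕ} (h : k < l) : cofExt (tr x l) l k = x k := by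
  simp [cofExt, tr, h]

lemma mem_tr {x : ℕ → Bool} {l k : ℕ} : k ∈ tr x l ↔ k < l ∧ x k = true := by
  simp [tr]

lemma cofExt_mem_filterSet {F : Filter ℕ} (hF : F ≤ cofinite) (s : Finset ℕ) (l : ℕ) :
    cofExt s l ∈ filterSet F := by
  apply hF
  rw [mem_cofinite]
  refine (Set.finite_lt_nat l).subset ?_
  intro k hk
  simp only [mem_compl_iff, mem_ofPred_eq] at hk ⊢
  by_contra hkl
  exact hk (cofExt_of_ge (not_lt.1 hkl))

lemma filterSet_subset_positiveSet {F : Filter ℕ} [F.NeBot] : filterSet F ⊆ positiveSet F := by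
  intro x hx S hS
  exact Filter.nonempty_of_mem (Filter.inter_mem hx hS)

lemma cofExt_mem_positiveSet {F : Filter ℕ} [F.NeBot] (hF : F ≤ cofinite) (s : Finset ℕ) (l : ℕ) :
    cofExt s l ∈ positiveSet F :=
  filterSet_subset_positiveSet (cofExt_mem_filterSet hF s l)

end Pool.Agent.MP_ba1c1e_lc
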