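import Mathlib

/-!
Definitions used in the statement.
-/

namespace Pool.Agent.MP_ba1c1e_lc

/-- The family of (characteristic functions of) members of the filter `F`,
as a subset of the Cantor space `ℕ → Bool`. -/
def filterSet (F : Filter ℕ) : Set (ℕ → Bool) :=
  {x | {n | x n = true} ∈ F}

/-- The family of (characteristic functions of) `F`-positive sets,
as a subset of the Cantor space `ℕ → Bool`. -/
def positiveSet (F : Filter ℕ) : Set (ℕ → Bool) :=
  {x | ∀ S ∈ F, ({n | x n = true} ∩ S).Nonempty}

end Pool.Agent.MP_ba1c1e_lc
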