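import Pool.Agent.MP_ba1c1e_lc.Basic

/-!
The case where there is a P-point `W`: the filter `comap bf W ⊓ comap bg atTop`.
-/

namespace Pool.Agent.MP_ba1c1e_lc

open Set Filter Topology

/-- `W` is a (nonprincipal) P-point ultrafilter. -/
def IsPPoint (W : Ultrafilter ℕ) : Prop :=
  (W : Filter ℕ) ≤ cofinite ∧ ∀ T : ℕ → Set ℕ, (∀ j, T j ∈ W) → ∃ S ∈ W, ∀ j, (S \ T j).Finite

/-- block index -/
def bf (k : ℕ) : ℕ := Nat.sqrt k
/-- level inside the block -/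
def bg (k : ℕ) : ℕ := k - Nat.sqrt k ^ 2

lemma bf_lt {n k : ℕ} (h : bf k ≤ n) : k < (n + 1) ^ 2 := by
  have h1 : k < (Nat.sqrt k + 1) ^ 2 := Nat.lt_succ_sqrt' k
  have h2 : (Nat.sqrt k + 1) ^ 2 ≤ (n + 1) ^ 2 :=
    Nat.pow_le_pow_left (Nat.succ_le_succ h) 2
  exact h1.trans_le h2

lemma bf_le (k : ℕ) : bf k ≤ k := Nat.sqrt_le_self k

lemma bf_pair {n i : ℕ} (h : i ≤ n) : bf (n ^ 2 + i) = n := by
  unfold bf
  exact Nat.sqrt_add_eq' n (by omega)

lemma bg_pair {n i : ℕ} (h : i ≤ n) : bg (n ^ 2 + i) = i := by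
  unfold bg
  rw [Nat.sqrt_add_eq' n (by omega)]
  omega

/-- The filter generated by the blocks over `W` and the levels. -/
def FW (W : Filter ℕ) : Filter ℕ := W.comap bf ⊓ atTop.comap bg

lemma mem_FW {W : Filter ℕ} {s : Set ℕ} :
    s ∈ FW W ↔ ∃ T ∈ W, ∃ i : ℕ, ∀ k, bf k ∈ T → i ≤ bg k → k ∈ s := by
  unfold FW
  rw [mem_inf_iff]
  constructor
  · rintro ⟨s1, hs1, s2, hs2, rfl⟩
    obtain ⟨T, hT, hT'⟩ := mem_comap.1 hs1
    obtain ⟨I, hI, hI'⟩ := mem_comap.1 hs2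
    obtain ⟨i, hi⟩ := mem_atTop_sets.1 hI
    exact ⟨T, hT, i, fun k hk hk' => ⟨hT' hk, hI' (hi _ hk')⟩⟩
  · rintro ⟨T, hT, i, h⟩
    refine ⟨s ∪ bf ⁻¹' T, ?_, s ∪ bg ⁻¹' (Ici i), ?_, ?_⟩
    · exact mem_of_superset (preimage_mem_comap hT) subset_union_right
    · exact mem_of_superset (preimage_mem_comap (Ici_mem_atTop i)) subset_union_right
    · ext k
      simp only [mem_inter_iff, mem_union, mem_preimage, mem_Ici]
      constructor
      · intro hk; exact ⟨Or.inl hk, Or.inl hk⟩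
      · rintro ⟨h1 | h1, h2 | h2⟩
        · exact h1
        · exact h1
        · exact h2
        · exact h k h1 h2

lemma nonprincipal_Ici {W : Filter ℕ} (hW : W ≤ cofinite) (n : ℕ) : {k | n ≤ k} ∈ W := by
  apply hW
  rw [mem_cofinite]
  refine (Set.finite_lt_nat n).subset fun k hk => ?_
  simpa using hk

lemma FW_le_cofinite {W : Filter ℕ} (hW : W ≤ cofinite) : FW W ≤ cofinite := by
  intro s hs
  rw [mem_cofinite] at hs
  obtain ⟨b, hb⟩ := hs.bddAbove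
  rw [mem_FW]
  refine ⟨{k | b + 1 ≤ k}, nonprincipal_Ici hW (b + 1), 0, fun k hk _ => ?_⟩
  by_contra hks
  have h1 : k ≤ b := hb hks
  have h2 : b + 1 ≤ bf k := hk
  have h3 := bf_le k
  omega

lemma FW_neBot {W : Filter ℕ} [W.NeBot] (hW : W ≤ cofinite) : (FW W).NeBot := by
  rw [← forall_mem_nonempty_iff_neBot]
  intro s hs
  obtain ⟨T, hT, i, h⟩ := mem_FW.1 hs
  obtain ⟨n, hn, hn'⟩ := Filter.nonempty_of_mem (inter_mem hT (nonprincipal_Ici hW i))
  exact ⟨n ^ 2 + i, h _ (by rw [bf_pair hn']; exact hn) (by rw [bg_pair hn'])⟩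

lemma mem_positive_FW {W : Ultrafilter ℕ} {x : ℕ → Bool} :
    x ∈ positiveSet (FW W) ↔ ∀ i : ℕ, {n | ∃ k, bf k = n ∧ i ≤ bg k ∧ x k = true} ∈ W := by
  constructor
  · intro hx i
    by_contra hnot
    have hT := Ultrafilter.compl_mem_iff_notMem.2 hnot
    obtain ⟨k, hk1, hk2, hk3⟩ := hx {k | bf k ∈ {n | ∃ k, bf k = n ∧ i ≤ bg k ∧ x k = true}ᶜ ∧
      i ≤ bg k} (mem_FW.2 ⟨_, hT, i, fun k h1 h2 => ⟨h1, h2⟩⟩)
    exact hk2 ⟨k, rfl, hk3, hk1⟩
  · intro hx S hS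
    obtain ⟨T, hT, i, h⟩ := mem_FW.1 hS
    obtain ⟨n, hn, k, hk1, hk2, hk3⟩ := Filter.nonempty_of_mem (inter_mem hT (hx i))
    exact ⟨k, hk3, h k (hk1 ▸ hn) hk2⟩

theorem no_openLike_of_pPoint {W : Ultrafilter ℕ} (hW : IsPPoint W)
    (A : (ℕ → Bool) → (ℕ → Bool)) : ¬ OpenLike (positiveSet (FW W)) (filterSet (FW W)) A := by
  classical
  intro hA
  have hWc := hW.1
  have hFc := FW_le_cofinite hWc
  have : (FW W).NeBot := FW_neBot hWc
  -- the witnesses z(s,l,i)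
  have hz : ∀ p : Finset ℕ × ℕ × ℕ, ∃ z ∈ positiveSet (FW W),
      (∀ k < p.2.1, z k = cofExt p.1 p.2.1 k) ∧
      {n | (∃ k, bf k = n ∧ p.2.2 ≤ bg k ∧ z k = true) ∧
        (∃ k, bf k = n ∧ p.2.2 ≤ bg k ∧ A z k = false)} ∈ W := by
    rintro ⟨s, l, i⟩
    obtain ⟨m, hm⟩ := hA.opn (cofExt s l) (cofExt_mem_positiveSet hFc s l) l
    let q : ℕ → Bool := fun k => if k < m then A (cofExt s l) k else decide (bg k ≠ i)
    have hq : q ∈ filterSet (FW W) := by
      refine mem_FW.2 ⟨{n | m ≤ n}, nonprincipal_Ici hWc m, i + 1, fun k hk hk' => ?_⟩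
      have h1 : m ≤ bf k := hk
      have h2 := bf_le k
      have h3 : ¬ k < m := by omega
      simp only [mem_ofPred_eq, q]
      rw [if_neg h3]
      simp only [ne_eq, decide_eq_true_eq]
      omega
    obtain ⟨z, hzP, hz1, hz2⟩ := hm q hq (fun k hk => by simp [q, hk])
    refine ⟨z, hzP, hz1, ?_⟩
    have h1 := mem_positive_FW.1 hzP i
    have h2 : {n | max m i ≤ n} ∈ (W : Filter ℕ) := nonprincipal_Ici hWc _
    refine mem_of_superset (inter_mem h1 h2) ?_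
    rintro n ⟨hn1, hn2⟩
    refine ⟨hn1, n ^ 2 + i, bf_pair (le_trans (le_max_right _ _) hn2), ?_, ?_⟩
    · rw [bg_pair (le_trans (le_max_right _ _) hn2)]
    · rw [hz2]
      have h3 : ¬ n ^ 2 + i < m := by
        have h4 : m ≤ n := le_trans (le_max_left _ _) hn2
        have h5 : n ≤ n ^ 2 := Nat.le_self_pow (by norm_num) n
        omega
      simp only [q]
      rw [if_neg h3, bg_pair (le_trans (le_max_right _ _) hn2)]
      simp
  choose Z hZP hZ1 hZ2 using hz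
  -- P-point property
  obtain ⟨e, he⟩ := exists_surjective_nat (Finset ℕ × ℕ × ℕ)
  obtain ⟨S, hSW, hS⟩ := hW.2 (fun j => {n | (∃ k, bf k = n ∧ (e j).2.2 ≤ bg k ∧ Z (e j) k = true) ∧
        (∃ k, bf k = n ∧ (e j).2.2 ≤ bg k ∧ A (Z (e j)) k = false)}) (fun j => hZ2 (e j))
  have hgb : ∀ p : Finset ℕ × ℕ × ℕ, ∃ b : ℕ, ∀ n ∈ S, b ≤ n →
      (∃ k, bf k = n ∧ p.2.2 ≤ bg k ∧ Z p k = true) ∧
      (∃ k, bf k = n ∧ p.2.2 ≤ bg k ∧ A (Z p) k = false) := by
    intro p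
    obtain ⟨j, rfl⟩ := he p
    obtain ⟨b, hb⟩ := (hS j).bddAbove
    refine ⟨b + 1, fun n hn hbn => ?_⟩
    by_contra hnot
    have : n ≤ b := hb ⟨hn, hnot⟩
    omega
  choose gb hgb using hgb
  -- continuity modulus
  have hmod : ∀ (p : Finset ℕ × ℕ × ℕ) (N : ℕ), ∃ l' : ℕ, ∀ y ∈ positiveSet (FW W),
      (∀ k < l', y k = Z p k) → ∀ k < (N + 1) ^ 2, A y k = A (Z p) k :=
    fun p N => hA.cont (Z p) (hZP p) _
  choose md hmd using hmod
  -- growth function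
  have hgrow : ∀ M : ℕ, ∃ g : ℕ, M + 1 ≤ g ∧ (M + 1) ^ 2 ≤ g ∧
      ∀ s ⊆ Finset.range M, ∀ l ≤ M, ∀ i ≤ M, ∀ N ≤ M,
        gb (s, l, i) ≤ g ∧ md (s, l, i) N ≤ g := by
    intro M
    have h1 : ∀ s ∈ (Finset.range M).powerset, ∀ᶠ g : ℕ in atTop,
        ∀ l ∈ Finset.range (M + 1), ∀ i ∈ Finset.range (M + 1), ∀ N ∈ Finset.range (M + 1),
        gb (s, l, i) ≤ g ∧ md (s, l, i) N ≤ g := by
      intro s _
      rw [Filter.eventually_all_finset]
      intro l _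
      rw [Filter.eventually_all_finset]
      intro t _
      rw [Filter.eventually_all_finset]
      intro r _
      exact (eventually_ge_atTop _).and (eventually_ge_atTop _)
    rw [← Filter.eventually_all_finset] at h1
    obtain ⟨g, hg1, hg2, hg3⟩ := (h1.and ((eventually_ge_atTop (M + 1)).and
      (eventually_ge_atTop ((M + 1) ^ 2)))).exists
    refine ⟨g, hg2, hg3, fun s hs l hl i hi N hN => ?_⟩
    exact hg1 s (Finset.mem_powerset.2 hs) l (Finset.mem_range.2 (by omega)) i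
      (Finset.mem_range.2 (by omega)) N (Finset.mem_range.2 (by omega))
  choose Γ hΓ1 hΓ2 hΓ3 using hgrow
  obtain ⟨M, hM0, hMs⟩ : ∃ M : ℕ → ℕ, M 0 = 0 ∧ ∀ j, M (j + 1) = Γ (M j) :=
    ⟨fun j => Nat.rec 0 (fun _ a => Γ a) j, rfl, fun j => rfl⟩
  have hMlt : ∀ j, M j < M (j + 1) := fun j => by
    have := hΓ1 (M j)
    rw [hMs]; omega
  have hMmono : StrictMono M := strictMono_nat_of_lt_succ hMlt
  have hMid : ∀ j, j ≤ M j := fun j => hMmono.le_apply
  -- pigeonhole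
  have hchunk : ∀ n, ∃ j, M j ≤ n ∧ n < M (j + 1) := by
    intro n
    have hex : ∃ j, n < M j := ⟨n + 1, by have := hMid (n + 1); omega⟩
    have hpos : Nat.find hex ≠ 0 := by
      intro h0
      have := Nat.find_spec hex
      rw [h0, hM0] at this
      omega
    refine ⟨Nat.find hex - 1, ?_, ?_⟩
    · have := Nat.find_min hex (m := Nat.find hex - 1) (by omega)
      omega
    · have h1 : Nat.find hex - 1 + 1 = Nat.find hex := by omega
      rw [h1]
      exact Nat.find_spec hex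
  let E : ℕ → Set ℕ := fun r => {n | ∃ κ, M (3 * κ + r) ≤ n ∧ n < M (3 * κ + r + 1)}
  have hE : ∃ r, r < 3 ∧ E r ∈ W := by
    have h1 : (E 0 ∪ E 1) ∪ E 2 ∈ W := by
      have : (E 0 ∪ E 1) ∪ E 2 = univ := by
        rw [eq_univ_iff_forall]
        intro n
        obtain ⟨j, hj1, hj2⟩ := hchunk n
        have h3 : j = 3 * (j / 3) + j % 3 := by omega
        have h4 : j % 3 < 3 := Nat.mod_lt _ (by norm_num)
        obtain hj | hj | hj : j % 3 = 0 ∨ j % 3 = 1 ∨ j % 3 = 2 := by omega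
        · left; left
          rw [hj] at h3
          exact ⟨j / 3, by rw [← h3]; exact hj1, by rw [← h3]; exact hj2⟩
        · left; right
          rw [hj] at h3
          exact ⟨j / 3, by rw [← h3]; exact hj1, by rw [← h3]; exact hj2⟩
        · right
          rw [hj] at h3
          exact ⟨j / 3, by rw [← h3]; exact hj1, by rw [← h3]; exact hj2⟩
      rw [this]
      exact univ_mem
    rcases Ultrafilter.union_mem_iff.1 h1 with h2 | h2
    · rcases Ultrafilter.union_mem_iff.1 h2 with h3 | h3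
      · exact ⟨0, by norm_num, h3⟩
      · exact ⟨1, by norm_num, h3⟩
    · exact ⟨2, by norm_num, h2⟩
  obtain ⟨r, hr3, hEr⟩ := hE
  -- the sequence of strings
  obtain ⟨L, hL⟩ : ∃ L : ℕ → ℕ, ∀ k, L k = M (3 * k + r + 2) := ⟨_, fun _ => rfl⟩
  obtain ⟨s, hs0, hss⟩ : ∃ s : ℕ → Finset ℕ, s 0 = ∅ ∧
      ∀ k, s (k + 1) = tr (Z (s k, L k, k)) (L (k + 1)) :=
    ⟨fun k => Nat.rec (∅ : Finset ℕ) (fun k sk => tr (Z (sk, L k, k)) (L (k + 1))) k,
      rfl, fun k => rfl⟩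
  have hLmono : StrictMono L := by
    intro a b hab
    rw [hL, hL]
    exact hMmono (by omega)
  have hssub : ∀ k, s k ⊆ Finset.range (L k) := by
    intro k
    cases k with
    | zero => simp [hs0]
    | succ k =>
      rw [hss]
      intro a ha
      exact Finset.mem_range.2 (mem_tr.1 ha).1
  have hcoh1 : ∀ k, ∀ n < L k, (n ∈ s (k + 1) ↔ n ∈ s k) := by
    intro k n hn
    rw [hss, mem_tr, hZ1 (s k, L k, k) n hn, cofExt_of_lt hn]
    have : n < L (k + 1) := hn.trans (hLmono (Nat.lt_succ_self k))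
    simp [this]
  have hcoh : ∀ k d, ∀ n < L k, (n ∈ s (k + d) ↔ n ∈ s k) := by
    intro k d
    induction d with
    | zero => intro n _; rfl
    | succ d ih =>
      intro n hn
      rw [← ih n hn, ← add_assoc]
      exact hcoh1 (k + d) n (hn.trans_le (hLmono.monotone (by omega)))
  have hLid : ∀ k, k < L k := by
    intro k
    have := hMid (3 * k + r + 2)
    rw [hL]
    omega
  let x : ℕ → Bool := fun n => decide (n ∈ s n)
  have hx : ∀ k, ∀ n < L k, x n = decide (n ∈ s k) := by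
    intro k n hn
    simp only [x]
    congr 1
    apply propext
    rcases le_total n k with h | h
    · obtain ⟨d, rfl⟩ := Nat.exists_eq_add_of_le h
      exact (hcoh n d n (hLid n)).symm
    · obtain ⟨d, rfl⟩ := Nat.exists_eq_add_of_le h
      exact hcoh k d _ hn
  have hxZ : ∀ k, ∀ n < L (k + 1), x n = Z (s k, L k, k) n := by
    intro k n hn
    rw [hx (k + 1) n hn, hss]
    simp [mem_tr, hn]
  -- key facts about captured blocks
  have hkey : ∀ i : ℕ, ∀ n ∈ S, n ∈ E r → M (3 * i + 6) ≤ n → ∃ k, i ≤ k ∧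
      n < M (3 * k + r + 4) ∧
      (∃ a, bf a = n ∧ k ≤ bg a ∧ Z (s k, L k, k) a = true) ∧
      (∃ a, bf a = n ∧ k ≤ bg a ∧ A (Z (s k, L k, k)) a = false) := by
    intro i n hnS hnE hnM
    obtain ⟨κ, hκ1, hκ2⟩ := hnE
    have h1 : 3 * i + 6 < 3 * κ + r + 1 := hMmono.lt_iff_lt.1 (lt_of_le_of_lt hnM hκ2)
    obtain ⟨k, rfl⟩ : ∃ k, κ = k + 1 := ⟨κ - 1, by omega⟩
    refine ⟨k, by omega, ?_, ?_⟩
    · have : 3 * (k + 1) + r + 1 = 3 * k + r + 4 := by ring
      rw [this] at hκ2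
      exact hκ2
    · refine hgb (s k, L k, k) n hnS (le_trans ?_ hκ1)
      have h2 : 3 * (k + 1) + r = (3 * k + r + 2) + 1 := by ring
      rw [h2, hMs, ← hL]
      exact (hΓ3 (L k) (s k) (hssub k) (L k) le_rfl k
        (le_of_lt (hLid k)) 0 (Nat.zero_le _)).1
  have hsmall : ∀ k n a, n < M (3 * k + r + 4) → bf a = n →
      a < (M (3 * k + r + 4) + 1) ^ 2 ∧ a < L (k + 1) := by
    intro k n a hn ha
    have h1 : a < (M (3 * k + r + 4) + 1) ^ 2 := bf_lt (by omega)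
    refine ⟨h1, ?_⟩
    have h2 : L (k + 1) = Γ (M (3 * k + r + 4)) := by
      rw [hL, ← hMs]
      congr 1
      ring
    rw [h2]
    exact lt_of_lt_of_le h1 (hΓ2 _)
  have hbig : ∀ i : ℕ, S ∩ E r ∩ {n | M (3 * i + 6) ≤ n} ∈ (W : Filter ℕ) := fun i =>
    inter_mem (inter_mem hSW hEr) (nonprincipal_Ici hWc _)
  have hxP : x ∈ positiveSet (FW W) := by
    rw [mem_positive_FW]
    intro i
    refine mem_of_superset (hbig i) ?_
    rintro n ⟨⟨hnS, hnE⟩, hnM⟩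
    obtain ⟨k, hik, hnk, ⟨a, ha1, ha2, ha3⟩, _⟩ := hkey i n hnS hnE hnM
    refine ⟨a, ha1, hik.trans ha2, ?_⟩
    rw [hxZ k a (hsmall k n a hnk ha1).2]
    exact ha3
  obtain ⟨T, hT, i, hTi⟩ := mem_FW.1 (hA.maps x hxP)
  obtain ⟨n, hnT, ⟨hnS, hnE⟩, hnM⟩ := Filter.nonempty_of_mem (inter_mem hT (hbig i))
  obtain ⟨k, hik, hnk, _, ⟨a, ha1, ha2, ha3⟩⟩ := hkey i n hnS hnE hnM
  have h1 : A x a = A (Z (s k, L k, k)) a := by
    refine hmd (s k, L k, k) (M (3 * k + r + 4)) x hxP (fun b hb => hxZ k b ?_) a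
      (hsmall k n a hnk ha1).1
    refine lt_of_lt_of_le hb ?_
    have h2 : L (k + 1) = Γ (M (3 * k + r + 4)) := by
      rw [hL, ← hMs]
      congr 1
      ring
    rw [h2]
    refine (hΓ3 (M (3 * k + r + 4)) (s k) ?_ (L k) ?_ k ?_ _ le_rfl).2
    · refine (hssub k).trans (Finset.range_mono ?_)
      rw [hL]
      exact hMmono.monotone (by omega)
    · rw [hL]
      exact hMmono.monotone (by omega)
    · exact le_trans (by omega) (hMid (3 * k + r + 4))
  have h2 : A x a = true := hTi a (ha1 ▸ hnT) (hik.trans ha2)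
  rw [h1, ha3] at h2
  exact absurd h2 (by simp)

end Pool.Agent.MP_ba1c1e_lc
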