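import Pool.Agent.MP_ba1c1e_lc.Far
import Pool.Agent.MP_ba1c1e_lc.PPoint

/-!
If there is no P-point, then there are two ultrafilters which are far apart.
-/

namespace Pool.Agent.MP_ba1c1e_lc

open Set Filter Topology Cardinal

/-- An everywhere dominating family of functions. -/
def Dom (D : Set (ℕ → ℕ)) : Prop := ∀ e : ℕ → ℕ, ∃ g ∈ D, ∀ n, e n ≤ g n

lemma exists_minimal_dom : ∃ D : Set (ℕ → ℕ), Dom D ∧ ∀ D', Dom D' → #D ≤ #D' := by
  have hne : {D : Set (ℕ → ℕ) | Dom D}.Nonempty :=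
    ⟨univ, fun e => ⟨e, mem_univ _, fun _ => le_rfl⟩⟩
  have hwf : WellFounded (fun a b : Set (ℕ → ℕ) => #a < #b) :=
    InvImage.wf (fun a : Set (ℕ → ℕ) => #a) Cardinal.lt_wf
  obtain ⟨D, hD, hmin⟩ := hwf.has_min _ hne
  exact ⟨D, hD, fun D' hD' => not_lt.1 (hmin D' hD')⟩

lemma dom_uncountable {D : Set (ℕ → ℕ)} (hD : Dom D) : ℵ₀ < #D := by
  by_contra hle
  have hc : D.Countable := Cardinal.le_aleph0_iff_set_countable.1 (not_lt.1 hle)
  have hne : D.Nonempty := by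
    obtain ⟨g, hg, _⟩ := hD 0
    exact ⟨g, hg⟩
  obtain ⟨f, hf⟩ := hc.exists_eq_range hne
  obtain ⟨g, hg, hdom⟩ := hD (fun n => f n n + 1)
  rw [hf] at hg
  obtain ⟨n, rfl⟩ := hg
  have := hdom n
  omega

/-- The filter `X` has a base of size less than `κ`. -/
def SB (κ : Cardinal.{0}) (X : Filter ℕ) : Prop :=
  ∃ B : Set (Set ℕ), #B < κ ∧ ∀ s ∈ X, ∃ t ∈ B, t ⊆ s ∧ t ∈ X

lemma isPPoint_of_SB {D : Set (ℕ → ℕ)} (hmin : ∀ D', Dom D' → #D ≤ #D')
    {W : Ultrafilter ℕ} (hW : (W : Filter ℕ) ≤ cofinite) (hSB : SB (#D) (W : Filter ℕ)) :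
    IsPPoint W := by
  classical
  refine ⟨hW, fun T hT => ?_⟩
  obtain ⟨B, hB, hbase⟩ := hSB
  let T' : ℕ → Set ℕ := fun j => {k | (∀ i ≤ j, k ∈ T i) ∧ j ≤ k}
  have hT' : ∀ j, T' j ∈ W := by
    intro j
    have h1 : (⋂ i ∈ Finset.range (j + 1), T i) ∈ (W : Filter ℕ) :=
      (Filter.biInter_finset_mem _).2 fun i _ => hT i
    refine mem_of_superset (inter_mem h1 (nonprincipal_Ici hW j)) ?_
    rintro k ⟨hk1, hk2⟩
    refine ⟨fun i hi => ?_, hk2⟩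
    exact (mem_iInter₂.1 hk1) i (Finset.mem_range.2 (by omega))
  let c : Set ℕ → ℕ → ℕ := fun b n => sInf (b ∩ T' n)
  have hnd : ¬ Dom (c '' B) := by
    intro hdom
    have h1 := hmin _ hdom
    have h2 : #(c '' B) ≤ #B := Cardinal.mk_image_le
    exact absurd (lt_of_le_of_lt (h1.trans h2) hB) (lt_irrefl _)
  unfold Dom at hnd
  push Not at hnd
  obtain ⟨e, he⟩ := hnd
  refine ⟨{m | ∃ n ≤ m, m < e n ∧ m ∈ T' n}, ?_, ?_⟩
  · by_contra hnot
    have hcompl := Ultrafilter.compl_mem_iff_notMem.2 hnot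
    obtain ⟨b, hbB, hbsub, hbW⟩ := hbase _ hcompl
    obtain ⟨n, hn⟩ := he (c b) ⟨b, hbB, rfl⟩
    have hne : (b ∩ T' n).Nonempty := Filter.nonempty_of_mem (inter_mem hbW (hT' n))
    have hmem := Nat.sInf_mem hne
    exact hbsub hmem.1 ⟨n, hmem.2.2, hn, hmem.2⟩
  · intro j
    refine ((Set.finite_lt_nat (∑ n ∈ Finset.range j, e n))).subset ?_
    rintro m ⟨⟨n, hnm, hme, hmT⟩, hmj⟩
    have hnj : n < j := by
      by_contra hnj
      exact hmj (hmT.1 j (not_lt.1 hnj))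
    have h1 : e n ≤ ∑ n ∈ Finset.range j, e n :=
      Finset.single_le_sum (f := e) (fun _ _ => Nat.zero_le _) (Finset.mem_range.2 hnj)
    exact lt_of_lt_of_le hme h1

lemma SB.inf_principal {κ : Cardinal.{0}} {X : Filter ℕ} (h : SB κ X) (S : Set ℕ) :
    SB κ (X ⊓ 𝓟 S) := by
  obtain ⟨B, hB, hbase⟩ := h
  refine ⟨(fun t => t ∩ S) '' B, lt_of_le_of_lt Cardinal.mk_image_le hB, fun s hs => ?_⟩
  rw [mem_inf_principal] at hs
  obtain ⟨t, htB, hts, htX⟩ := hbase _ hs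
  refine ⟨t ∩ S, ⟨t, htB, rfl⟩, fun k hk => hts hk.1 hk.2, ?_⟩
  exact inter_mem_inf htX (mem_principal_self S)

lemma SB.map {κ : Cardinal.{0}} {X : Filter ℕ} (h : SB κ X) (f : ℕ → ℕ) :
    SB κ (X.map f) := by
  obtain ⟨B, hB, hbase⟩ := h
  refine ⟨(fun t => f '' t) '' B, lt_of_le_of_lt Cardinal.mk_image_le hB, fun s hs => ?_⟩
  obtain ⟨t, htB, hts, htX⟩ := hbase _ hs
  exact ⟨f '' t, ⟨t, htB, rfl⟩, image_subset_iff.2 hts, image_mem_map htX⟩

section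

variable {D : Set (ℕ → ℕ)}

lemma basic_step (hmin : ∀ D', Dom D' → #D ≤ #D') (hnp : ∀ W : Ultrafilter ℕ, ¬ IsPPoint W)
    {X Y : Filter ℕ} [X.NeBot] [Y.NeBot] (hX : X ≤ cofinite) (hSB : SB (#D) X)
    {f : ℕ → ℕ} (hf : Tendsto f cofinite cofinite) :
    ∃ A B : Set ℕ, (X ⊓ 𝓟 A).NeBot ∧ (Y ⊓ 𝓟 B).NeBot ∧ ∀ a ∈ A, ∀ b ∈ B, f a ≠ f b := by
  have hmap : X.map f ≤ cofinite := (map_mono hX).trans hf
  obtain ⟨S, hS1, hS2⟩ : ∃ S : Set ℕ, S ∉ X.map f ∧ Sᶜ ∉ X.map f := by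
    by_contra hcon
    push Not at hcon
    have heq : ((Ultrafilter.of (X.map f) : Ultrafilter ℕ) : Filter ℕ) = X.map f := by
      refine le_antisymm (Ultrafilter.of_le _) fun s hs => ?_
      by_contra hnot
      have h1 : sᶜ ∈ X.map f := hcon s hnot
      have h2 : sᶜ ∈ ((Ultrafilter.of (X.map f) : Ultrafilter ℕ) : Filter ℕ) :=
        Ultrafilter.of_le _ h1
      have h3 := inter_mem hs h2
      rw [inter_compl_self] at h3
      exact Filter.empty_notMem _ h3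
    refine hnp (Ultrafilter.of (X.map f)) (isPPoint_of_SB hmin ?_ ?_)
    · rw [heq]; exact hmap
    · rw [heq]; exact hSB.map f
  have h1 : (X ⊓ 𝓟 (f ⁻¹' S)ᶜ).NeBot := by
    rw [neBot_iff]
    intro h
    exact hS1 (mem_map.2 (mem_iff_inf_principal_compl.2 h))
  have h2 : (X ⊓ 𝓟 (f ⁻¹' S)).NeBot := by
    rw [neBot_iff]
    intro h
    refine hS2 (mem_map.2 (mem_iff_inf_principal_compl.2 ?_))
    rw [← preimage_compl, compl_compl]
    exact h
  by_cases hY : (Y ⊓ 𝓟 (f ⁻¹' S)).NeBot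
  · exact ⟨_, _, h1, hY, fun a ha b hb hab => ha (show f a ∈ S from hab ▸ hb)⟩
  · have h3 : (f ⁻¹' S)ᶜ ∈ Y := by
      refine mem_iff_inf_principal_compl.2 ?_
      rw [compl_compl]
      rw [neBot_iff, not_not] at hY
      exact hY
    have h4 : (Y ⊓ 𝓟 (f ⁻¹' S)ᶜ).NeBot := by
      rw [inf_eq_left.2 (le_principal_iff.2 h3)]
      infer_instance
    exact ⟨_, _, h2, h4, fun a ha b hb hab => hb (show f b ∈ S from hab ▸ ha)⟩

lemma sep_step (hmin : ∀ D', Dom D' → #D ≤ #D') (hnp : ∀ W : Ultrafilter ℕ, ¬ IsPPoint W)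
    {X Y : Filter ℕ} [X.NeBot] [Y.NeBot] (hX : X ≤ cofinite)
    (hSB : SB (#D) X) (G : ℕ → ℕ) :
    ∃ A B : Set ℕ, (X ⊓ 𝓟 A).NeBot ∧ (Y ⊓ 𝓟 B).NeBot ∧ Separated G A B := by
  -- interval partition
  obtain ⟨e, he0, hes⟩ : ∃ e : ℕ → ℕ, e 0 = 0 ∧
      ∀ n, e (n + 1) = e n + 1 + ∑ m ∈ Finset.range (e n), G m :=
    ⟨fun n => Nat.rec 0 (fun _ a => a + 1 + ∑ m ∈ Finset.range a, G m) n, rfl, fun _ => rfl⟩
  have hemono : StrictMono e := strictMono_nat_of_lt_succ fun n => by rw [hes]; omega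
  have heid : ∀ n, n ≤ e n := fun n => hemono.le_apply
  have heG : ∀ n m, m < e n → G m < e (n + 1) := by
    intro n m hm
    have h1 : G m ≤ ∑ m ∈ Finset.range (e n), G m :=
      Finset.single_le_sum (f := G) (fun _ _ => Nat.zero_le _) (Finset.mem_range.2 hm)
    rw [hes]; omega
  have hex : ∀ k, ∃ n, k < e (n + 1) := fun k => ⟨k, by have := heid (k + 1); omega⟩
  let blk : ℕ → ℕ := fun k => Nat.find (hex k)
  have hb1 : ∀ k, k < e (blk k + 1) := fun k => Nat.find_spec (hex k)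
  have hb2 : ∀ k, e (blk k) ≤ k := by
    intro k
    rcases Nat.eq_zero_or_pos (blk k) with h | h
    · rw [h, he0]; exact Nat.zero_le _
    · have h1 := Nat.find_min (hex k) (m := blk k - 1) (by
        show blk k - 1 < blk k
        omega)
      have h2 : blk k - 1 + 1 = blk k := by omega
      rw [h2] at h1
      omega
  have hbmono : ∀ {a b}, a ≤ b → blk a ≤ blk b := by
    intro a b hab
    have h1 : e (blk a) < e (blk b + 1) := lt_of_le_of_lt ((hb2 a).trans hab) (hb1 b)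
    have := hemono.lt_iff_lt.1 h1
    omega
  have hblarge : ∀ N k, e N ≤ k → N ≤ blk k := by
    intro N k hk
    have h1 : e N < e (blk k + 1) := lt_of_le_of_lt hk (hb1 k)
    have := hemono.lt_iff_lt.1 h1
    omega
  have htend : ∀ f : ℕ → ℕ, (∀ k, blk k / 2 ≤ f k) → Tendsto f cofinite cofinite := by
    intro f hf
    rw [Nat.cofinite_eq_atTop]
    refine tendsto_atTop.2 fun N => ?_
    filter_upwards [eventually_ge_atTop (e (2 * N))] with k hk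
    have := hblarge (2 * N) k hk
    have := hf k
    omega
  obtain ⟨A1, B1, hA1, hB1, hAB1⟩ := basic_step (Y := Y) hmin hnp hX hSB
    (htend (fun k => blk k / 2) (fun _ => le_rfl))
  obtain ⟨A2, B2, hA2, hB2, hAB2⟩ := basic_step (X := X ⊓ 𝓟 A1) (Y := Y ⊓ 𝓟 B1) hmin hnp
    (inf_le_left.trans hX) (hSB.inf_principal A1)
    (htend (fun k => (blk k + 1) / 2) (fun k => by omega))
  refine ⟨A1 ∩ A2, B1 ∩ B2, ?_, ?_, ?_⟩
  · rw [← inf_principal, ← inf_assoc]; exact hA2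
  · rw [← inf_principal, ← inf_assoc]; exact hB2
  · rintro a ⟨ha1, ha2⟩ b ⟨hb1', hb2'⟩
    have h1 : blk a / 2 ≠ blk b / 2 := hAB1 a ha1 b hb1'
    have h2 : (blk a + 1) / 2 ≠ (blk b + 1) / 2 := hAB2 a ha2 b hb2'
    have key : ∀ a b, blk a / 2 ≠ blk b / 2 → (blk a + 1) / 2 ≠ (blk b + 1) / 2 → a ≤ b →
        G a < b := by
      intro a b h1 h2 hab
      have h3 := hbmono hab
      have h4 : blk a + 2 ≤ blk b := by omega
      have h5 : G a < e (blk a + 1 + 1) := heG _ _ (hb1 a)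
      have h6 : e (blk a + 1 + 1) ≤ e (blk b) := hemono.monotone h4
      exact lt_of_lt_of_le h5 (h6.trans (hb2 b))
    exact ⟨key a b h1 h2, key b a h1.symm h2.symm⟩

/-- small base of the filters in the recursion -/
lemma SB_iInf {κ : Cardinal.{0}} (hκ : ℵ₀ < κ) {J : Type} (hJ : #J < κ) (A : J → Set ℕ) :
    SB κ (cofinite ⊓ ⨅ j, 𝓟 (A j)) := by
  classical
  have hbasis : (cofinite ⊓ ⨅ j, 𝓟 (A j) : Filter ℕ).HasBasis
      (fun p : ℕ × Set J => True ∧ p.2.Finite) (fun p => Ici p.1 ∩ ⋂ i ∈ p.2, A i) := by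
    rw [Nat.cofinite_eq_atTop]
    exact atTop_basis.inf (hasBasis_iInf_principal_finite A)
  refine ⟨range (fun p : ℕ × Finset J => Ici p.1 ∩ ⋂ i ∈ p.2, A i), ?_, ?_⟩
  · refine lt_of_le_of_lt Cardinal.mk_range_le ?_
    rw [Cardinal.mk_prod, Cardinal.lift_id, Cardinal.lift_id, Cardinal.mk_nat]
    refine Cardinal.mul_lt_of_lt hκ.le hκ ?_
    rcases finite_or_infinite J with hJf | hJi
    · have : Finite (Finset J) := inferInstance
      exact (Cardinal.lt_aleph0_of_finite _).trans hκ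
    · rw [Cardinal.mk_finset_of_infinite]
      exact hJ
  · intro s hs
    obtain ⟨⟨n, t⟩, ⟨-, ht⟩, hsub⟩ := hbasis.mem_iff.1 hs
    have h1 : (Ici n ∩ ⋂ i ∈ t, A i) ∈ (cofinite ⊓ ⨅ j, 𝓟 (A j) : Filter ℕ) :=
      hbasis.mem_of_mem (i := (n, t)) ⟨trivial, ht⟩
    have h2 : (⋂ i ∈ ht.toFinset, A i) = ⋂ i ∈ t, A i := by simp
    refine ⟨_, ⟨(n, ht.toFinset), rfl⟩, ?_, ?_⟩
    · simp only [h2]; exact hsub
    · simp only [h2]; exact h1

end

/-- the filters in the recursion -/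
def Xf {ι : Type} [LinearOrder ι] (A : ι → Set ℕ) (i : ι) : Filter ℕ :=
  cofinite ⊓ ⨅ j : {j // j < i}, 𝓟 (A j)

lemma Xf_anti {ι : Type} [LinearOrder ι] (A : ι → Set ℕ) {i j : ι} (h : i ≤ j) :
    Xf A j ≤ Xf A i := by
  refine inf_le_inf le_rfl (le_iInf fun k => ?_)
  exact iInf_le (fun k : {k // k < j} => 𝓟 (A k)) ⟨k.1, k.2.trans_le h⟩

lemma Xf_le_principal {ι : Type} [LinearOrder ι] (A : ι → Set ℕ) {i j : ι} (h : i < j) :
    Xf A j ≤ 𝓟 (A i) :=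
  inf_le_right.trans (iInf_le (fun k : {k // k < j} => 𝓟 (A k)) ⟨i, h⟩)

/-- A chain of positive extensions stays proper. -/
lemma neBot_of_chain {ι : Type} [LinearOrder ι] (A : ι → Set ℕ) {K : Type} (v : K → ι)
    (h : ∀ k, (Xf A (v k) ⊓ 𝓟 (A (v k))).NeBot) :
    (cofinite ⊓ ⨅ k : K, 𝓟 (A (v k)) : Filter ℕ).NeBot := by
  rcases isEmpty_or_nonempty K with hK | hK
  · rw [iInf_of_empty, inf_top_eq]
    infer_instance
  · have hdir : Directed (· ≥ ·) (fun k : K => Xf A (v k) ⊓ 𝓟 (A (v k))) := by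
      have key : ∀ a b : K, v a ≤ v b →
          Xf A (v b) ⊓ 𝓟 (A (v b)) ≤ Xf A (v a) ⊓ 𝓟 (A (v a)) := by
        intro a b hab
        rcases hab.lt_or_eq with hlt | heq
        · exact le_inf (inf_le_left.trans (Xf_anti A hab))
            (inf_le_left.trans (Xf_le_principal A hlt))
        · rw [heq]
      intro a b
      rcases le_total (v a) (v b) with hab | hab
      · exact ⟨b, key a b hab, le_rfl⟩
      · exact ⟨a, le_rfl, key b a hab⟩
    have h1 : (⨅ k : K, Xf A (v k) ⊓ 𝓟 (A (v k))).NeBot := iInf_neBot_of_directed' hdir h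
    refine h1.mono (le_inf ?_ ?_)
    · obtain ⟨k⟩ := hK
      exact (iInf_le _ k).trans (inf_le_left.trans inf_le_left)
    · exact iInf_mono fun k => inf_le_right

theorem exists_farApart (hnp : ∀ W : Ultrafilter ℕ, ¬ IsPPoint W) :
    ∃ U V : Ultrafilter ℕ, (U : Filter ℕ) ≤ cofinite ∧ (V : Filter ℕ) ≤ cofinite ∧
      FarApart (U : Filter ℕ) (V : Filter ℕ) := by
  classical
  obtain ⟨D, hD, hmin⟩ := exists_minimal_dom
  have hunc := dom_uncountable hD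
  let ι := (#D).ord.ToType
  have hcard : #ι = #D := Cardinal.mk_ord_toType _
  obtain ⟨g⟩ : Nonempty (ι ≃ D) := Cardinal.eq.1 hcard
  have hsmall : ∀ i : ι, #{j // j < i} < #D := by
    intro i
    have h1 : (#ι).ord = Ordinal.type (fun x y : ι => x < y) := by
      rw [hcard]; exact (Ordinal.type_toType _).symm
    have h2 := Cardinal.mk_Iio_lt i h1
    rw [hcard] at h2
    exact h2
  -- recursion
  obtain ⟨p, hp⟩ : ∃ p : ι → Set ℕ × Set ℕ, ∀ i,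
      (∃ A B : Set ℕ, (Xf (fun j => (p j).1) i ⊓ 𝓟 A).NeBot ∧
        (Xf (fun j => (p j).2) i ⊓ 𝓟 B).NeBot ∧ Separated (g i : ℕ → ℕ) A B) →
      ((Xf (fun j => (p j).1) i ⊓ 𝓟 (p i).1).NeBot ∧
        (Xf (fun j => (p j).2) i ⊓ 𝓟 (p i).2).NeBot ∧ Separated (g i : ℕ → ℕ) (p i).1 (p i).2) := by
    let F : (i : ι) → ((j : ι) → j < i → Set ℕ × Set ℕ) → Set ℕ × Set ℕ := fun i rec =>
      if h : ∃ q : Set ℕ × Set ℕ,
        ((cofinite ⊓ ⨅ j : {j // j < i}, 𝓟 (rec j.1 j.2).1) ⊓ 𝓟 q.1 : Filter ℕ).NeBot ∧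
        ((cofinite ⊓ ⨅ j : {j // j < i}, 𝓟 (rec j.1 j.2).2) ⊓ 𝓟 q.2 : Filter ℕ).NeBot ∧
        Separated (g i : ℕ → ℕ) q.1 q.2
      then h.choose else (univ, univ)
    have hwf : WellFounded (fun a b : ι => a < b) := wellFounded_lt
    refine ⟨hwf.fix F, fun i h => ?_⟩
    have hfix := hwf.fix_eq F i
    obtain ⟨A, B, hA, hB, hAB⟩ := h
    have hex : ∃ q : Set ℕ × Set ℕ,
        ((cofinite ⊓ ⨅ j : {j // j < i}, 𝓟 (hwf.fix F j.1).1) ⊓ 𝓟 q.1 : Filter ℕ).NeBot ∧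
        ((cofinite ⊓ ⨅ j : {j // j < i}, 𝓟 (hwf.fix F j.1).2) ⊓ 𝓟 q.2 : Filter ℕ).NeBot ∧
        Separated (g i : ℕ → ℕ) q.1 q.2 := ⟨(A, B), hA, hB, hAB⟩
    have heq : hwf.fix F i = hex.choose := by
      rw [hfix]
      simp only [F]
      rw [dif_pos hex]
    have hsp := hex.choose_spec
    rw [← heq] at hsp
    exact hsp
  have hmain : ∀ i : ι, (Xf (fun j => (p j).1) i ⊓ 𝓟 (p i).1).NeBot ∧
      (Xf (fun j => (p j).2) i ⊓ 𝓟 (p i).2).NeBot ∧
      Separated (g i : ℕ → ℕ) (p i).1 (p i).2 := by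
    intro i
    induction i using WellFoundedLT.induction with
    | ind i ih =>
      apply hp
      have hX : (Xf (fun j => (p j).1) i).NeBot :=
        neBot_of_chain (fun j => (p j).1) (fun k : {j // j < i} => k.1) (fun k => (ih k.1 k.2).1)
      have hY : (Xf (fun j => (p j).2) i).NeBot :=
        neBot_of_chain (fun j => (p j).2) (fun k : {j // j < i} => k.1) (fun k => (ih k.1 k.2).2.1)
      exact sep_step (X := Xf (fun j => (p j).1) i) (Y := Xf (fun j => (p j).2) i) hmin hnp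
        inf_le_left (SB_iInf hunc (hsmall i) _) (g i)
  have hXinf : (cofinite ⊓ ⨅ k : ι, 𝓟 (p k).1 : Filter ℕ).NeBot :=
    neBot_of_chain (fun j => (p j).1) (fun k : ι => k) (fun k => (hmain k).1)
  have hYinf : (cofinite ⊓ ⨅ k : ι, 𝓟 (p k).2 : Filter ℕ).NeBot :=
    neBot_of_chain (fun j => (p j).2) (fun k : ι => k) (fun k => (hmain k).2.1)
  let U : Ultrafilter ℕ := Ultrafilter.of (cofinite ⊓ ⨅ k : ι, 𝓟 (p k).1)
  let V : Ultrafilter ℕ := Ultrafilter.of (cofinite ⊓ ⨅ k : ι, 𝓟 (p k).2)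
  have hU : (U : Filter ℕ) ≤ (cofinite ⊓ ⨅ k : ι, 𝓟 (p k).1) := Ultrafilter.of_le _
  have hV : (V : Filter ℕ) ≤ (cofinite ⊓ ⨅ k : ι, 𝓟 (p k).2) := Ultrafilter.of_le _
  refine ⟨U, V, hU.trans inf_le_left, hV.trans inf_le_left, ?_⟩
  intro G
  obtain ⟨h, hh, hdom⟩ := hD G
  obtain ⟨i, hi⟩ := g.surjective ⟨h, hh⟩
  have hgi : (g i : ℕ → ℕ) = h := by rw [hi]
  refine ⟨(p i).1, le_principal_iff.1 (hU.trans (inf_le_right.trans (iInf_le _ i))),
    (p i).2, le_principal_iff.1 (hV.trans (inf_le_right.trans (iInf_le _ i))), ?_⟩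
  have hsep := (hmain i).2.2
  rw [hgi] at hsep
  intro a ha b hb
  exact ⟨fun hab => lt_of_le_of_lt (hdom a) ((hsep a ha b hb).1 hab),
    fun hab => lt_of_le_of_lt (hdom b) ((hsep a ha b hb).2 hab)⟩

end Pool.Agent.MP_ba1c1e_lc
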