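import Pool.Agent.MP_ba1c1e_lc.Basic

/-!
If a filter `F` is contained in two ultrafilters which are `far apart` (not nearly coherent),
then there is no continuous open surjection from `F⁺` onto `F`.
-/

namespace Pool.Agent.MP_ba1c1e_lc

open Set Filter Topology

/-- `Separated G C D`: points of `C` and `D` are separated by gaps of size governed by `G`. -/
def Separated (G : ℕ → ℕ) (C D : Set ℕ) : Prop :=
  ∀ a ∈ C, ∀ b ∈ D, (a ≤ b → G a < b) ∧ (b ≤ a → G b < a)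

lemma Separated.symm {G : ℕ → ℕ} {C D : Set ℕ} (h : Separated G C D) : Separated G D C :=
  fun a ha b hb => ⟨(h b hb a ha).2, (h b hb a ha).1⟩

lemma Separated.mono {G : ℕ → ℕ} {C D C' D' : Set ℕ} (h : Separated G C D) (hC : C' ⊆ C)
    (hD : D' ⊆ D) : Separated G C' D' :=
  fun a ha b hb => h a (hC ha) b (hD hb)

section

variable {P Q : Set (ℕ → Bool)} {A : (ℕ → Bool) → (ℕ → Bool)}

/-- Two-strings invariant. -/
def Inv (P : Set (ℕ → Bool)) (A : (ℕ → Bool) → (ℕ → Bool)) (m : Finset ℕ → ℕ → ℕ)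
    (s : Finset ℕ) (l : ℕ) (t : Finset ℕ) (r : ℕ) : Prop :=
  ∀ z ∈ P, (∀ k < l, z k = decide (k ∈ s)) →
    ∀ j < m t r, A (cofExt t r) j = true → A z j = false

lemma Inv.mono {m : Finset ℕ → ℕ → ℕ} {s s' : Finset ℕ} {l l' : ℕ} {t : Finset ℕ} {r : ℕ}
    (h : Inv P A m s l t r) (hl : l ≤ l') (hs : ∀ k < l, (k ∈ s' ↔ k ∈ s)) :
    Inv P A m s' l' t r := by
  intro z hz hzk j hj hA
  refine h z hz (fun k hk => ?_) j hj hA
  rw [hzk k (hk.trans_le hl)]
  simp [hs k hk]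

lemma step (hPQ : OpenLike P Q A) (hQ : ∀ x : ℕ → Bool, {k | x k = false}.Finite → x ∈ Q)
    (hP : ∀ x : ℕ → Bool, {k | x k = false}.Finite → x ∈ P)
    {m : Finset ℕ → ℕ → ℕ}
    (hm : ∀ s l, ∀ q ∈ Q, (∀ k < m s l, q k = A (cofExt s l) k) →
      ∃ z ∈ P, (∀ k < l, z k = cofExt s l k) ∧ A z = q)
    {s : Finset ℕ} {l : ℕ} {t : Finset ℕ} {r : ℕ} (h : Inv P A m s l t r) :
    ∃ (t' : Finset ℕ) (r' : ℕ), r ≤ r' ∧ (∀ k < r, (k ∈ t' ↔ k ∈ t)) ∧ Inv P A m t' r' s l := by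
  classical
  have hcof : ∀ (s : Finset ℕ) (l : ℕ), cofExt s l ∈ P := by
    intro s l
    apply hP
    refine (Set.finite_lt_nat l).subset fun k hk => ?_
    by_contra hkl
    have : cofExt s l k = true := cofExt_of_ge (not_lt.1 hkl)
    simp only [mem_ofPred_eq] at hk
    rw [this] at hk
    exact absurd hk (by simp)
  -- the target point
  let q : ℕ → Bool := fun k =>
    if k < m t r then A (cofExt t r) k
    else if k < m s l then !(A (cofExt s l) k) else true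
  have hq : q ∈ Q := by
    apply hQ
    refine (Set.finite_lt_nat (max (m t r) (m s l))).subset fun k hk => ?_
    by_contra hkl
    simp only [mem_ofPred_eq, lt_max_iff, not_or, not_lt] at hkl
    have : q k = true := by
      simp only [q]
      rw [if_neg (by omega), if_neg (by omega)]
    simp only [mem_ofPred_eq] at hk
    rw [this] at hk
    exact absurd hk (by simp)
  obtain ⟨z, hzP, hz1, hz2⟩ := hm t r q hq (fun k hk => by simp [q, hk])
  obtain ⟨r1, hr1⟩ := hPQ.cont z hzP (m s l)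
  refine ⟨tr z (max r r1), max r r1, le_max_left _ _, ?_, ?_⟩
  · intro k hk
    rw [mem_tr, hz1 k hk, cofExt_of_lt hk]
    simp [hk]
  · intro w hw hwk j hj hAj
    have h1 : A w j = A z j := by
      refine hr1 w hw (fun k hk => ?_) j hj
      have hk' : k < max r r1 := lt_max_of_lt_right hk
      rw [hwk k hk']
      simp [mem_tr, hk']
    rw [h1, hz2]
    simp only [q]
    by_cases hjm : j < m t r
    · rw [if_pos hjm]
      by_contra hne
      have hne' : A (cofExt t r) j = true := by simpa using hne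
      have := h (cofExt s l) (hcof s l) (fun k hk => cofExt_of_lt hk) j hjm hne'
      rw [this] at hAj
      exact absurd hAj (by simp)
    · rw [if_neg hjm, if_pos hj, hAj]
      rfl

/-- Uniform bound for the step lemma. -/
lemma exists_bound (hPQ : OpenLike P Q A)
    (hQ : ∀ x : ℕ → Bool, {k | x k = false}.Finite → x ∈ Q)
    (hP : ∀ x : ℕ → Bool, {k | x k = false}.Finite → x ∈ P)
    {m : Finset ℕ → ℕ → ℕ}
    (hm : ∀ s l, ∀ q ∈ Q, (∀ k < m s l, q k = A (cofExt s l) k) →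
      ∃ z ∈ P, (∀ k < l, z k = cofExt s l k) ∧ A z = q) :
    ∃ G : ℕ → ℕ, (∀ c, c ≤ G c) ∧ ∀ c, ∀ s ⊆ Finset.range (c + 1), ∀ l ≤ c + 1,
      ∀ t ⊆ Finset.range (c + 1), ∀ r ≤ c + 1, Inv P A m s l t r →
      ∃ (t' : Finset ℕ) (r' : ℕ), r ≤ r' ∧ r' ≤ G c ∧ (∀ k < r, (k ∈ t' ↔ k ∈ t)) ∧
        Inv P A m t' r' s l := by
  classical
  have key : ∀ c : ℕ, ∃ g : ℕ, c ≤ g ∧ ∀ s ⊆ Finset.range (c + 1), ∀ l ≤ c + 1,
      ∀ t ⊆ Finset.range (c + 1), ∀ r ≤ c + 1, Inv P A m s l t r →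
      ∃ (t' : Finset ℕ) (r' : ℕ), r ≤ r' ∧ r' ≤ g ∧ (∀ k < r, (k ∈ t' ↔ k ∈ t)) ∧
        Inv P A m t' r' s l := by
    intro c
    have h1 : ∀ s ∈ (Finset.range (c + 1)).powerset, ∀ᶠ g : ℕ in atTop,
        ∀ l ∈ Finset.range (c + 2), ∀ t ∈ (Finset.range (c + 1)).powerset,
        ∀ r ∈ Finset.range (c + 2), Inv P A m s l t r →
        ∃ (t' : Finset ℕ) (r' : ℕ), r ≤ r' ∧ r' ≤ g ∧ (∀ k < r, (k ∈ t' ↔ k ∈ t)) ∧
          Inv P A m t' r' s l := by
      intro s _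
      rw [Filter.eventually_all_finset]
      intro l _
      rw [Filter.eventually_all_finset]
      intro t _
      rw [Filter.eventually_all_finset]
      intro r _
      by_cases hI : Inv P A m s l t r
      · obtain ⟨t', r', h1, h2, h3⟩ := step hPQ hQ hP hm hI
        filter_upwards [eventually_ge_atTop r'] with g hg _
        exact ⟨t', r', h1, hg, h2, h3⟩
      · exact Filter.Eventually.of_forall fun g h => absurd h hI
    rw [← Filter.eventually_all_finset] at h1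
    obtain ⟨g, hg1, hg2⟩ := (h1.and (eventually_ge_atTop c)).exists
    refine ⟨g, hg2, fun s hs l hl t ht r hr hI => ?_⟩
    exact hg1 s (Finset.mem_powerset.2 hs) l (Finset.mem_range.2 (by omega)) t
      (Finset.mem_powerset.2 ht) r (Finset.mem_range.2 (by omega)) hI
  choose G hG1 hG2 using key
  exact ⟨G, hG1, hG2⟩

/-- The state predicate used in the construction. -/
structure St (P : Set (ℕ → Bool)) (A : (ℕ → Bool) → (ℕ → Bool)) (m : Finset ℕ → ℕ → ℕ)
    (C D : Set ℕ) (c : ℕ) (s t : Finset ℕ) (r : ℕ) : Prop where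
  memC : c ∈ C
  sub1 : s ⊆ Finset.range (c + 1)
  cov1 : ∀ k ∈ C, k ≤ c → k ∈ s
  sub2 : t ⊆ Finset.range r
  cov2 : ∀ k ∈ D, k ≤ c → k ∈ t
  le : r ≤ c + 1
  inv : Inv P A m s (c + 1) t r

lemma transition {m : Finset ℕ → ℕ → ℕ} {G : ℕ → ℕ} (hG1 : ∀ c, c ≤ G c)
    (hG2 : ∀ c, ∀ s ⊆ Finset.range (c + 1), ∀ l ≤ c + 1,
      ∀ t ⊆ Finset.range (c + 1), ∀ r ≤ c + 1, Inv P A m s l t r →
      ∃ (t' : Finset ℕ) (r' : ℕ), r ≤ r' ∧ r' ≤ G c ∧ (∀ k < r, (k ∈ t' ↔ k ∈ t)) ∧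
        Inv P A m t' r' s l)
    {C D : Set ℕ} (hsep : Separated G C D) (hD : D.Infinite)
    {c : ℕ} {s t : Finset ℕ} {r : ℕ} (h : St P A m C D c s t r) :
    ∃ (c' : ℕ) (s' t' : Finset ℕ) (r' : ℕ), c + 1 ≤ c' ∧ c + 1 ≤ r' ∧
      St P A m D C c' s' t' r' := by
  classical
  -- next element of D after c
  have hex : ∃ d, d ∈ D ∧ c < d := by
    obtain ⟨d, hd, hcd⟩ := hD.exists_gt c
    exact ⟨d, hd, hcd⟩
  let c' := Nat.find hex
  have hc'D : c' ∈ D := (Nat.find_spec hex).1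
  have hcc' : c < c' := (Nat.find_spec hex).2
  have hmin : ∀ d ∈ D, c < d → c' ≤ d := fun d hd hcd => Nat.find_min' hex ⟨hd, hcd⟩
  -- last element of C before c'
  have hfin : {a | a ∈ C ∧ a < c'}.Finite := (Set.finite_lt_nat c').subset fun a ha => ha.2
  obtain ⟨cs, ⟨hcsC, hcs⟩, hmax⟩ := Set.exists_max_image {a | a ∈ C ∧ a < c'} id hfin
    ⟨c, h.memC, hcc'⟩
  have hccs : c ≤ cs := hmax c ⟨h.memC, hcc'⟩
  have hdisj : ∀ k ∈ C, k ∉ D := by
    intro k hk hk'
    have := (hsep k hk k hk').1 le_rfl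
    exact absurd (hG1 k) (not_le.2 this)
  have hGcs : G cs < c' := (hsep cs hcsC c' hc'D).1 hcs.le
  let ss : Finset ℕ := s ∪ Finset.Ico (c + 1) (cs + 1)
  have hss_sub : ss ⊆ Finset.range (cs + 1) := by
    intro k hk
    rcases Finset.mem_union.1 hk with hk | hk
    · have := Finset.mem_range.1 (h.sub1 hk)
      exact Finset.mem_range.2 (by omega)
    · have := Finset.mem_Ico.1 hk
      exact Finset.mem_range.2 (by omega)
  have hinv1 : Inv P A m ss (cs + 1) t r := by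
    refine h.inv.mono (by omega) fun k hk => ?_
    simp only [ss, Finset.mem_union, Finset.mem_Ico]
    constructor
    · rintro (h | h)
      · exact h
      · omega
    · exact fun h => Or.inl h
  have ht_sub : t ⊆ Finset.range (cs + 1) := by
    intro k hk
    have := Finset.mem_range.1 (h.sub2 hk)
    have := h.le
    exact Finset.mem_range.2 (by omega)
  obtain ⟨t', r', hrr', hr'G, ht', hinv'⟩ := hG2 cs ss hss_sub (cs + 1) le_rfl t ht_sub r
    (by have := h.le; omega) hinv1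
  let tt : Finset ℕ := (t'.filter (· < r')) ∪ Finset.Ico r' (c' + 1)
  refine ⟨c', tt, ss, cs + 1, by omega, by omega, ?_⟩
  refine ⟨hc'D, ?_, ?_, hss_sub, ?_, by omega, ?_⟩
  · intro k hk
    rcases Finset.mem_union.1 hk with hk | hk
    · have := (Finset.mem_filter.1 hk).2
      exact Finset.mem_range.2 (by omega)
    · have := Finset.mem_Ico.1 hk
      exact Finset.mem_range.2 (by omega)
  · intro k hkD hkc
    by_cases hkcs : k ≤ c
    · have hkt := h.cov2 k hkD hkcs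
      have hkr := Finset.mem_range.1 (h.sub2 hkt)
      refine Finset.mem_union.2 (Or.inl (Finset.mem_filter.2 ⟨(ht' k hkr).2 hkt, by omega⟩))
    · have := hmin k hkD (by omega)
      exact Finset.mem_union.2 (Or.inr (Finset.mem_Ico.2 ⟨by omega, by omega⟩))
  · intro k hkC hkc
    have hne : k ≠ c' := fun hk => hdisj k hkC (hk ▸ hc'D)
    have hkcs : k ≤ cs := hmax k ⟨hkC, by omega⟩
    by_cases hk' : k ≤ c
    · exact Finset.mem_union.2 (Or.inl (h.cov1 k hkC hk'))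
    · exact Finset.mem_union.2 (Or.inr (Finset.mem_Ico.2 ⟨by omega, by omega⟩))
  · refine hinv'.mono (by omega) fun k hk => ?_
    simp only [tt, Finset.mem_union, Finset.mem_filter, Finset.mem_Ico]
    constructor
    · rintro (h | h)
      · exact h.1
      · omega
    · exact fun h => Or.inl ⟨h, hk⟩

lemma exists_states {m : Finset ℕ → ℕ → ℕ} {G : ℕ → ℕ} (hG1 : ∀ c, c ≤ G c)
    (hG2 : ∀ c, ∀ s ⊆ Finset.range (c + 1), ∀ l ≤ c + 1,
      ∀ t ⊆ Finset.range (c + 1), ∀ r ≤ c + 1, Inv P A m s l t r →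
      ∃ (t' : Finset ℕ) (r' : ℕ), r ≤ r' ∧ r' ≤ G c ∧ (∀ k < r, (k ∈ t' ↔ k ∈ t)) ∧
        Inv P A m t' r' s l)
    {C D : Set ℕ} (hsep : Separated G C D) (hC : C.Infinite) (hD : D.Infinite)
    (h0 : ∃ (c : ℕ) (s t : Finset ℕ) (r : ℕ), St P A m C D c s t r) (n : ℕ) :
    (∃ (c : ℕ) (s t : Finset ℕ) (r : ℕ), n ≤ c ∧ n ≤ r ∧ St P A m C D c s t r) ∨
    (∃ (c : ℕ) (s t : Finset ℕ) (r : ℕ), n ≤ c ∧ n ≤ r ∧ St P A m D C c s t r) := by
  induction n with
  | zero =>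
    obtain ⟨c, s, t, r, h⟩ := h0
    exact Or.inl ⟨c, s, t, r, Nat.zero_le _, Nat.zero_le _, h⟩
  | succ n ih =>
    rcases ih with ⟨c, s, t, r, hc, hr, h⟩ | ⟨c, s, t, r, hc, hr, h⟩
    · obtain ⟨c', s', t', r', h1, h2, h3⟩ := transition hG1 hG2 hsep hD h
      exact Or.inr ⟨c', s', t', r', by omega, by omega, h3⟩
    · obtain ⟨c', s', t', r', h1, h2, h3⟩ := transition hG1 hG2 hsep.symm hC h
      exact Or.inl ⟨c', s', t', r', by omega, by omega, h3⟩

/-- The final contradiction from a long state. -/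
lemma no_long_state (hQ : ∀ x : ℕ → Bool, {k | x k = false}.Finite → x ∈ Q)
    (hP : ∀ x : ℕ → Bool, {k | x k = false}.Finite → x ∈ P)
    {m : Finset ℕ → ℕ → ℕ}
    (hm : ∀ s l, ∀ q ∈ Q, (∀ k < m s l, q k = A (cofExt s l) k) →
      ∃ z ∈ P, (∀ k < l, z k = cofExt s l k) ∧ A z = q)
    {C D : Set ℕ} {M : ℕ}
    (hM : ∀ x1 : ℕ → Bool, (∀ k ∈ C, x1 k = true) → ∀ x2 : ℕ → Bool, (∀ k ∈ D, x2 k = true) →
      ∃ j, ∀ z1 ∈ P, (∀ k < M, z1 k = x1 k) → ∀ z2 ∈ P, (∀ k < M, z2 k = x2 k) →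
        A z1 j = true ∧ A z2 j = true)
    {c : ℕ} {s t : Finset ℕ} {r : ℕ} (hc : M ≤ c) (hr : M ≤ r)
    (h : St P A m C D c s t r) : False := by
  classical
  have hcof : ∀ (s : Finset ℕ) (l : ℕ), cofExt s l ∈ P := by
    intro s l
    apply hP
    refine (Set.finite_lt_nat l).subset fun k hk => ?_
    by_contra hkl
    have : cofExt s l k = true := cofExt_of_ge (not_lt.1 hkl)
    simp only [mem_ofPred_eq] at hk
    rw [this] at hk
    exact absurd hk (by simp)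
  obtain ⟨j, hj⟩ := hM (cofExt s (c + 1)) (fun k hk => by
      by_cases hkc : k < c + 1
      · rw [cofExt_of_lt hkc]
        simpa using h.cov1 k hk (by omega)
      · exact cofExt_of_ge (by omega)) (cofExt t r) (fun k hk => by
      by_cases hkc : k < r
      · rw [cofExt_of_lt hkc]
        have := h.le
        simpa using h.cov2 k hk (by omega)
      · exact cofExt_of_ge (by omega))
  have hx1 := hj (cofExt s (c + 1)) (hcof _ _) (fun k _ => rfl)
  by_cases hjm : j < m t r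
  · have h2 := (hx1 (cofExt t r) (hcof _ _) (fun k _ => rfl))
    have h3 := h.inv (cofExt s (c + 1)) (hcof _ _) (fun k hk => cofExt_of_lt hk) j hjm h2.2
    rw [h2.1] at h3
    exact absurd h3 (by simp)
  · let q : ℕ → Bool := fun k => if k < m t r then A (cofExt t r) k else decide (k ≠ j)
    have hq : q ∈ Q := by
      apply hQ
      refine (Set.finite_lt_nat (max (m t r) (j + 1))).subset fun k hk => ?_
      by_contra hkl
      simp only [mem_ofPred_eq, lt_max_iff, not_or, not_lt] at hkl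
      have : q k = true := by
        simp only [q]
        rw [if_neg (by omega)]
        simp only [ne_eq, decide_eq_true_eq]
        omega
      simp only [mem_ofPred_eq] at hk
      rw [this] at hk
      exact absurd hk (by simp)
    obtain ⟨z, hzP, hz1, hz2⟩ := hm t r q hq (fun k hk => by simp [q, hk])
    have h2 := (hx1 z hzP (fun k hk => hz1 k (by omega))).2
    rw [hz2] at h2
    simp only [q] at h2
    rw [if_neg hjm] at h2
    simp at h2

end

/-- Compactness. -/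
lemma exists_uniform {P Q : Set (ℕ → Bool)} {A : (ℕ → Bool) → (ℕ → Bool)}
    (hPQ : OpenLike P Q A) (hint : ∀ x ∈ Q, ∀ y ∈ Q, ∃ j, x j = true ∧ y j = true)
    {C D : Set ℕ} (hC : ∀ x : ℕ → Bool, (∀ k ∈ C, x k = true) → x ∈ P)
    (hD : ∀ x : ℕ → Bool, (∀ k ∈ D, x k = true) → x ∈ P) :
    ∃ M : ℕ, ∀ x1 : ℕ → Bool, (∀ k ∈ C, x1 k = true) →
      ∀ x2 : ℕ → Bool, (∀ k ∈ D, x2 k = true) →
      ∃ j, ∀ z1 ∈ P, (∀ k < M, z1 k = x1 k) → ∀ z2 ∈ P, (∀ k < M, z2 k = x2 k) →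
        A z1 j = true ∧ A z2 j = true := by
  let K : Set ℕ → Set (ℕ → Bool) := fun C => {x | ∀ k ∈ C, x k = true}
  have hKc : ∀ C, IsCompact (K C) := by
    intro C
    apply IsClosed.isCompact
    have : K C = ⋂ k ∈ C, (fun y : ℕ → Bool => y k) ⁻¹' {true} := by
      ext y; simp [K]
    rw [this]
    refine isClosed_biInter fun k _ => ?_
    exact (isClosed_discrete _).preimage (continuous_apply k)
  let O : ℕ → Set ((ℕ → Bool) × (ℕ → Bool)) := fun n => {p | ∃ j,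
    ∀ z1 ∈ P, (∀ k < n, z1 k = p.1 k) → ∀ z2 ∈ P, (∀ k < n, z2 k = p.2 k) →
      A z1 j = true ∧ A z2 j = true}
  have hO : ∀ n, IsOpen (O n) := by
    intro n
    rw [isOpen_iff_mem_nhds]
    rintro ⟨x1, x2⟩ ⟨j, hj⟩
    have h1 : {y : ℕ → Bool | ∀ k < n, y k = x1 k} ∈ 𝓝 x1 :=
      (isOpen_cyl x1 n).mem_nhds (by simp)
    have h2 : {y : ℕ → Bool | ∀ k < n, y k = x2 k} ∈ 𝓝 x2 :=
      (isOpen_cyl x2 n).mem_nhds (by simp)
    filter_upwards [prod_mem_nhds h1 h2]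
    rintro ⟨y1, y2⟩ ⟨hy1, hy2⟩
    refine ⟨j, fun z1 hz1 hz1' z2 hz2 hz2' => hj z1 hz1 (fun k hk => ?_) z2 hz2 (fun k hk => ?_)⟩
    · rw [hz1' k hk]; exact hy1 k hk
    · rw [hz2' k hk]; exact hy2 k hk
  have hmono : Monotone O := by
    intro n n' hn
    rintro ⟨x1, x2⟩ ⟨j, hj⟩
    exact ⟨j, fun z1 hz1 hz1' z2 hz2 hz2' => hj z1 hz1 (fun k hk => hz1' k (by omega)) z2 hz2
      (fun k hk => hz2' k (by omega))⟩
  have hcover : K C ×ˢ K D ⊆ ⋃ n, O n := by
    rintro ⟨x1, x2⟩ ⟨hx1, hx2⟩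
    have hx1P := hC x1 hx1
    have hx2P := hD x2 hx2
    obtain ⟨j, hj1, hj2⟩ := hint _ (hPQ.maps x1 hx1P) _ (hPQ.maps x2 hx2P)
    obtain ⟨l1, hl1⟩ := hPQ.cont x1 hx1P (j + 1)
    obtain ⟨l2, hl2⟩ := hPQ.cont x2 hx2P (j + 1)
    refine mem_iUnion.2 ⟨max l1 l2, j, fun z1 hz1 hz1' z2 hz2 hz2' => ⟨?_, ?_⟩⟩
    · rw [hl1 z1 hz1 (fun k hk => hz1' k (lt_max_of_lt_left hk)) j (by omega), hj1]
    · rw [hl2 z2 hz2 (fun k hk => hz2' k (lt_max_of_lt_right hk)) j (by omega), hj2]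
  obtain ⟨M, hM⟩ := ((hKc C).prod (hKc D)).elim_directed_cover O hO hcover
    hmono.directed_le
  refine ⟨M, fun x1 hx1 x2 hx2 => ?_⟩
  exact hM (show (x1, x2) ∈ K C ×ˢ K D from ⟨hx1, hx2⟩)

/-- `U` and `V` are far apart: they contain `G`-separated sets for every `G`. -/
def FarApart (U V : Filter ℕ) : Prop :=
  ∀ G : ℕ → ℕ, ∃ C ∈ U, ∃ D ∈ V, Separated G C D

theorem no_openLike_of_farApart {F U V : Filter ℕ} [F.NeBot] [U.NeBot] [V.NeBot]
    (hF : F ≤ cofinite) (hU : U ≤ F) (hV : V ≤ F) (hfar : FarApart U V)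
    (A : (ℕ → Bool) → (ℕ → Bool)) : ¬ OpenLike (positiveSet F) (filterSet F) A := by
  classical
  intro hA
  have hQ : ∀ x : ℕ → Bool, {k | x k = false}.Finite → x ∈ filterSet F := by
    intro x hx
    apply hF
    rw [mem_cofinite]
    refine hx.subset fun k hk => ?_
    simpa using hk
  have hP : ∀ x : ℕ → Bool, {k | x k = false}.Finite → x ∈ positiveSet F :=
    fun x hx => filterSet_subset_positiveSet (hQ x hx)
  have hcof : ∀ (s : Finset ℕ) (l : ℕ), cofExt s l ∈ positiveSet F :=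
    fun s l => cofExt_mem_positiveSet hF s l
  have hm' : ∀ (s : Finset ℕ) (l : ℕ), ∃ m : ℕ, ∀ q ∈ filterSet F,
      (∀ k < m, q k = A (cofExt s l) k) →
      ∃ z ∈ positiveSet F, (∀ k < l, z k = cofExt s l k) ∧ A z = q :=
    fun s l => hA.opn (cofExt s l) (hcof s l) l
  choose m hm using hm'
  obtain ⟨G, hG1, hG2⟩ := exists_bound hA hQ hP hm
  obtain ⟨C, hCU, D, hDV, hsep⟩ := hfar G
  -- initial state
  let R0 := m ∅ 0
  let q0 : ℕ → Bool := fun k => decide (R0 ≤ k)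
  have hq0 : q0 ∈ filterSet F := by
    apply hQ
    refine (Set.finite_lt_nat R0).subset fun k hk => ?_
    simp only [q0, mem_ofPred_eq, decide_eq_false_iff_not, not_le] at hk
    exact hk
  obtain ⟨z0, hz0, hAz0⟩ := hA.surj q0 hq0
  obtain ⟨l0, hl0⟩ := hA.cont z0 hz0 R0
  have hUcof : U ≤ cofinite := hU.trans hF
  have hVcof : V ≤ cofinite := hV.trans hF
  -- cut C below l0
  let C1 := C \ {k | k < l0}
  have hC1 : C1 ∈ U := by
    have : {k : ℕ | k < l0}ᶜ ∈ U := hUcof (by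
      rw [mem_cofinite, compl_compl]; exact Set.finite_lt_nat l0)
    exact Filter.inter_mem hCU this
  have hinf : ∀ {W : Filter ℕ} [W.NeBot], W ≤ cofinite → ∀ {S : Set ℕ}, S ∈ W → S.Infinite := by
    intro W _ hW S hS hfin
    have h1 : Sᶜ ∈ W := hW (by rw [mem_cofinite, compl_compl]; exact hfin)
    have h2 := Filter.inter_mem hS h1
    rw [Set.inter_compl_self] at h2
    exact Filter.empty_notMem W h2
  obtain ⟨c0, hc0C, hc0⟩ := (hinf hUcof hC1).exists_gt l0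
  let D1 := D \ {k | k < c0 + 1}
  have hD1 : D1 ∈ V := by
    have : {k : ℕ | k < c0 + 1}ᶜ ∈ V := hVcof (by
      rw [mem_cofinite, compl_compl]; exact Set.finite_lt_nat (c0 + 1))
    exact Filter.inter_mem hDV this
  have hsep1 : Separated G C1 D1 := hsep.mono sdiff_subset sdiff_subset
  have hst : St (positiveSet F) A m C1 D1 c0 (tr z0 l0 ∪ Finset.Ico l0 (c0 + 1)) ∅ 0 := by
    refine ⟨hc0C, ?_, ?_, by simp, ?_, by omega, ?_⟩
    · intro k hk
      rcases Finset.mem_union.1 hk with hk | hk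
      · have := (mem_tr.1 hk).1
        exact Finset.mem_range.2 (by omega)
      · have := Finset.mem_Ico.1 hk
        exact Finset.mem_range.2 (by omega)
    · intro k hk hkc
      have : ¬ k < l0 := hk.2
      exact Finset.mem_union.2 (Or.inr (Finset.mem_Ico.2 ⟨by omega, by omega⟩))
    · intro k hk hkc
      have : ¬ k < c0 + 1 := hk.2
      omega
    · intro z hz hzk j hj _
      have h1 : A z j = A z0 j := by
        refine hl0 z hz (fun k hk => ?_) j hj
        rw [hzk k (by omega)]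
        have hnot : k ∉ Finset.Ico l0 (c0 + 1) := by
          rw [Finset.mem_Ico]; omega
        simp [mem_tr, hk, hnot]
      rw [h1, hAz0]
      simp only [q0, decide_eq_false_iff_not, not_le]
      exact hj
  have hint : ∀ x ∈ filterSet F, ∀ y ∈ filterSet F, ∃ j, x j = true ∧ y j = true := by
    intro x hx y hy
    obtain ⟨j, hj⟩ := Filter.nonempty_of_mem (Filter.inter_mem hx hy)
    exact ⟨j, hj.1, hj.2⟩
  have hmemP : ∀ {W : Filter ℕ} [W.NeBot], W ≤ F → ∀ {S : Set ℕ}, S ∈ W →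
      ∀ x : ℕ → Bool, (∀ k ∈ S, x k = true) → x ∈ positiveSet F := by
    intro W _ hW S hS x hx T hT
    obtain ⟨j, hj⟩ := Filter.nonempty_of_mem (Filter.inter_mem hS (hW hT))
    exact ⟨j, hx j hj.1, hj.2⟩
  obtain ⟨M, hM⟩ := exists_uniform hA hint (hmemP hU hC1) (hmemP hV hD1)
  rcases exists_states hG1 hG2 hsep1 (hinf hUcof hC1) (hinf hVcof hD1)
    ⟨c0, _, _, _, hst⟩ M with ⟨c, s, t, r, hc, hr, h⟩ | ⟨c, s, t, r, hc, hr, h⟩
  · exact no_long_state hQ hP hm hM hc hr h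
  · refine no_long_state hQ hP hm (C := D1) (D := C1) (M := M) ?_ hc hr h
    intro x1 hx1 x2 hx2
    obtain ⟨j, hj⟩ := hM x2 hx2 x1 hx1
    exact ⟨j, fun z1 hz1 hz1' z2 hz2 hz2' => (hj z2 hz2 hz2' z1 hz1 hz1').symm⟩

end Pool.Agent.MP_ba1c1e_lc
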