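import Pool.Agent.MP_ba1c1e_lc.PPoint

/-!
Nonmeagreness of the filters used.
-/

namespace Pool.Agent.MP_ba1c1e_lc

open Set Filter Topology

lemma not_isMeagre_of_cover {X ι : Type*} [TopologicalSpace X] [BaireSpace X] [Nonempty X]
    [Countable ι] {S : Set (ℕ → Bool)} (φ : ι → X → (ℕ → Bool)) (hc : ∀ i, Continuous (φ i))
    (ho : ∀ i, IsOpenMap (φ i)) (hcov : ∀ w, ∃ i, φ i w ∈ S) : ¬ IsMeagre S := by
  intro hS
  have h1 : IsMeagre (⋃ i, φ i ⁻¹' S) :=
    isMeagre_iUnion fun i => hS.preimage_of_isOpenMap (hc i) (ho i)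
  have h2 : (⋃ i, φ i ⁻¹' S) = univ := by
    rw [eq_univ_iff_forall]
    intro w
    obtain ⟨i, hi⟩ := hcov w
    exact mem_iUnion.2 ⟨i, hi⟩
  rw [h2] at h1
  exact not_isMeagre_of_isOpen isOpen_univ univ_nonempty h1

lemma mem_filterSet {F : Filter ℕ} {x : ℕ → Bool} : x ∈ filterSet F ↔ {n | x n = true} ∈ F :=
  Iff.rfl

lemma not_isMeagre_sup (U V : Ultrafilter ℕ) :
    ¬ IsMeagre (filterSet ((U : Filter ℕ) ⊔ (V : Filter ℕ))) := by
  refine not_isMeagre_of_cover (X := ℕ → Fin 3)
    (fun (i : Fin 3) => Pi.map fun (_ : ℕ) (a : Fin 3) => decide (a ≠ i)) ?_ ?_ ?_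
  · intro i
    exact Continuous.piMap fun _ => continuous_of_discreteTopology
  · intro i
    refine IsOpenMap.piMap (fun _ => fun s _ => isOpen_discrete _) (Eventually.of_forall fun _ => ?_)
    intro b
    cases b with
    | false => exact ⟨i, by simp⟩
    | true => exact ⟨i + 1, by simp⟩
  · intro w
    have key : ∀ W : Ultrafilter ℕ, ∃ j : Fin 3, {n | w n = j} ∈ W := by
      intro W
      have h1 : ({n | w n = 0} ∪ {n | w n = 1}) ∪ {n | w n = 2} ∈ W := by
        have : ({n | w n = 0} ∪ {n | w n = 1}) ∪ {n | w n = 2} = univ := by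
          rw [eq_univ_iff_forall]
          intro n
          simp only [mem_union, mem_ofPred_eq]
          generalize w n = a
          revert a
          decide
        rw [this]; exact univ_mem
      rcases Ultrafilter.union_mem_iff.1 h1 with h2 | h2
      · rcases Ultrafilter.union_mem_iff.1 h2 with h3 | h3
        · exact ⟨0, h3⟩
        · exact ⟨1, h3⟩
      · exact ⟨2, h2⟩
    obtain ⟨a, ha⟩ := key U
    obtain ⟨b, hb⟩ := key V
    have hdec : ∀ a b : Fin 3, ∃ i : Fin 3, a ≠ i ∧ b ≠ i := by decide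
    obtain ⟨i, hia, hib⟩ := hdec a b
    refine ⟨i, ?_⟩
    rw [mem_filterSet, mem_sup]
    constructor
    · refine mem_of_superset ha fun n hn => ?_
      have hn' : w n = a := hn
      simp [Pi.map, hn', hia]
    · refine mem_of_superset hb fun n hn => ?_
      have hn' : w n = b := hn
      simp [Pi.map, hn', hib]

/-- the map used for `FW` -/
def phi (b : Bool) (p : (ℕ → Bool) × (ℕ → Bool)) : ℕ → Bool :=
  fun k => p.1 k || (p.2 (bf k) == b)

lemma continuous_phi (b : Bool) : Continuous (phi b) := by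
  refine continuous_pi fun k => ?_
  have h1 : Continuous fun p : (ℕ → Bool) × (ℕ → Bool) => (p.1 k, p.2 (bf k)) :=
    ((continuous_apply k).comp continuous_fst).prodMk
      ((continuous_apply (bf k)).comp continuous_snd)
  have h2 : Continuous fun q : Bool × Bool => (q.1 || (q.2 == b)) :=
    continuous_of_discreteTopology
  exact h2.comp h1

lemma isOpenMap_phi (b : Bool) : IsOpenMap (phi b) := by
  refine IsOpenMap.of_nhds_le ?_
  rintro ⟨x, t⟩
  intro s hs
  rw [mem_map] at hs
  obtain ⟨U, hU, hUo, hUx⟩ := mem_nhds_iff.1 hs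
  obtain ⟨V1, V2, hV1, hV2, hx1, hx2, hV⟩ := isOpen_prod_iff.1 hUo x t hUx
  obtain ⟨l1, hl1⟩ := exists_len hV1 hx1
  obtain ⟨l2, hl2⟩ := exists_len hV2 hx2
  let l := max l1 l2
  have hnh : {y : ℕ → Bool | ∀ k < (l + 1) ^ 2, y k = phi b (x, t) k} ∈ 𝓝 (phi b (x, t)) :=
    (isOpen_cyl _ _).mem_nhds (by simp)
  filter_upwards [hnh] with y hy
  have hy' : ∀ k < (l + 1) ^ 2, y k = (x k || (t (bf k) == b)) := hy
  let t' : ℕ → Bool := fun j => if j < l then t j else !b
  let x' : ℕ → Bool := fun k => if k < l then x k else y k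
  have hmem : (x', t') ∈ U := by
    refine hV ⟨hl1 _ fun k hk => ?_, hl2 _ fun k hk => ?_⟩
    · have : k < l := lt_max_of_lt_left hk
      simp [x', this]
    · have : k < l := lt_max_of_lt_right hk
      simp [t', this]
  have hphi : phi b (x', t') = y := by
    funext k
    simp only [phi]
    by_cases hk : k < l
    · have h1 : bf k < l := lt_of_le_of_lt (bf_le k) hk
      have h2 : k < (l + 1) ^ 2 := by nlinarith
      simp only [x', t', hk, h1, if_true]
      exact (hy' k h2).symm
    · by_cases hb : bf k < l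
      · have h2 : k < (l + 1) ^ 2 := bf_lt hb.le
        simp only [x', t', hk, hb, if_true, if_false]
        rw [hy' k h2]
        cases x k <;> cases (t (bf k) == b) <;> rfl
      · simp only [x', t', hk, hb, if_false]
        cases b <;> simp
  rw [← hphi]
  exact hU hmem

lemma not_isMeagre_FW (W : Ultrafilter ℕ) : ¬ IsMeagre (filterSet (FW W)) := by
  refine not_isMeagre_of_cover (X := (ℕ → Bool) × (ℕ → Bool)) (ι := Bool) phi
    continuous_phi isOpenMap_phi ?_
  rintro ⟨x, t⟩
  have h1 : {n | t n = true} ∈ W ∨ {n | t n = false} ∈ W := by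
    rcases Ultrafilter.mem_or_compl_mem W {n | t n = true} with h | h
    · exact Or.inl h
    · right
      refine mem_of_superset h fun n hn => ?_
      simpa using hn
  have key : ∀ b : Bool, {n | t n = b} ∈ W → phi b (x, t) ∈ filterSet (FW W) := by
    intro b hb
    show {k | phi b (x, t) k = true} ∈ FW W
    refine mem_FW.2 ⟨_, hb, 0, fun k hk _ => ?_⟩
    have hk' : t (bf k) = b := hk
    simp [phi, hk']
  rcases h1 with h | h
  · exact ⟨true, key true h⟩
  · exact ⟨false, key false h⟩

end Pool.Agent.MP_ba1c1e_lc
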